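import Pool.Agent.Y734.I.StmsH
import Pool.Agent.Y734.I.QAlg

/-!
# Project Y734/I, job SIZE: linear algebra
-/

set_option autoImplicit false

namespace Pool.Agent.Y734.I.SIZE

open Pool.Agent.Y734.I

/-- the value of a rational form at a complex vector -/
noncomputable def cv (h : Fin 3 → ℚ) (v : Fin 3 → ℂ) : ℂ :=
  (h 0 : ℂ) * v 0 + (h 1 : ℂ) * v 1 + (h 2 : ℂ) * v 2

/-- the bilinear form -/
def bl (u v : Fin 3 → ℚ) (X : Matrix (Fin 3) (Fin 3) ℚ) : ℚ := ∑ j, ∑ k, u j * X j k * v k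

/-- the value of `X` at `p × q` -/
noncomputable def wq (p q : Fin 3 → ℂ) (X : Matrix (Fin 3) (Fin 3) ℚ) : ℂ :=
  (p 1 * q 2 - p 2 * q 1) ^ 2 * (X 0 0 : ℂ) + (p 2 * q 0 - p 0 * q 2) ^ 2 * (X 1 1 : ℂ) +
    (p 0 * q 1 - p 1 * q 0) ^ 2 * (X 2 2 : ℂ) +
    2 * (p 1 * q 2 - p 2 * q 1) * (p 2 * q 0 - p 0 * q 2) * (X 0 1 : ℂ) +
    2 * (p 1 * q 2 - p 2 * q 1) * (p 0 * q 1 - p 1 * q 0) * (X 0 2 : ℂ) +
    2 * (p 2 * q 0 - p 0 * q 2) * (p 0 * q 1 - p 1 * q 0) * (X 1 2 : ℂ)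

lemma wq_swap (p q : Fin 3 → ℂ) (X : Matrix (Fin 3) (Fin 3) ℚ) : wq p q X = wq q p X := by
  unfold wq
  ring

lemma cv_zero {a b c : Fin 3 → ℚ} (h : LinearIndependent ℚ ![a, b, c]) {v : Fin 3 → ℂ}
    (ha : cv a v = 0) (hb : cv b v = 0) (hc : cv c v = 0) : v = 0 := by
  have hδ := dt3_ne h
  have hδ' : ((dt3 a (crs b c) : ℚ) : ℂ) ≠ 0 := by exact_mod_cast hδ
  have key : ∀ k, ((dt3 a (crs b c) : ℚ) : ℂ) * v k = cv a v * (crs b c k : ℂ) +
      cv b v * (crs c a k : ℂ) + cv c v * (crs a b k : ℂ) := by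
    intro k
    fin_cases k <;> simp [dt3, crs, cv] <;> ring
  funext k
  have := key k
  rw [ha, hb, hc, zero_mul, zero_mul, zero_mul, add_zero, add_zero] at this
  exact (mul_eq_zero.1 this).resolve_left hδ'

lemma card_le_two {q : ℕ} {H : Fin q → Fin 3 → ℚ} (hH : GP3 H) {v : Fin 3 → ℂ} (hv : v ≠ 0)
    (s : Finset (Fin q)) (hs : ∀ i ∈ s, cv (H i) v = 0) : s.card ≤ 2 := by
  by_contra h
  rw [not_le, Finset.two_lt_card_iff] at h
  obtain ⟨i, j, k, hi, hj, hk, hij, hik, hjk⟩ := h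
  exact hv (cv_zero (hH i j k hij hik hjk) (hs i hi) (hs j hj) (hs k hk))

lemma qv_sym {A : Matrix (Fin 3) (Fin 3) ℚ} {p q : Fin 3 → ℂ}
    (hA : ∀ j k, ((A j k : ℚ) : ℂ) = p j * q k + q j * p k) (h : Fin 3 → ℚ) :
    ((qv h A : ℚ) : ℂ) = 2 * cv h p * cv h q := by
  unfold qv cv
  simp only [Fin.sum_univ_three]
  push_cast
  simp only [hA]
  ring

lemma d3_sum {A X : Matrix (Fin 3) (Fin 3) ℚ} {p q : Fin 3 → ℂ} (hX : X.IsSymm)
    (hA : ∀ j k, ((A j k : ℚ) : ℂ) = p j * q k + q j * p k) :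
    ((D3 A A X + D3 A X A + D3 X A A : ℚ) : ℂ) = -wq p q X := by
  have h1 : ((X 1 0 : ℚ) : ℂ) = ((X 0 1 : ℚ) : ℂ) := by rw [hX.apply 0 1]
  have h2 : ((X 2 0 : ℚ) : ℂ) = ((X 0 2 : ℚ) : ℂ) := by rw [hX.apply 0 2]
  have h3 : ((X 2 1 : ℚ) : ℂ) = ((X 1 2 : ℚ) : ℂ) := by rw [hX.apply 1 2]
  unfold D3 wq
  simp only [Matrix.det_fin_three, Matrix.of_apply, Matrix.cons_val_zero, Matrix.cons_val_one,
    Matrix.cons_val_two, Matrix.head_cons, Matrix.tail_cons, Matrix.cons_val]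
  push_cast
  simp only [hA, h1, h2, h3]
  ring

lemma wq_expand {X : Matrix (Fin 3) (Fin 3) ℚ} (hX : X.IsSymm) (a b : Fin 3 → ℚ)
    (p q : Fin 3 → ℂ) (c : ℂ) (hp : ∀ j, p j = c * (crs a b j : ℂ)) :
    wq p q X = c ^ 2 * (cv a q ^ 2 * ((qv b X : ℚ) : ℂ) + cv b q ^ 2 * ((qv a X : ℚ) : ℂ) -
      2 * cv a q * cv b q * ((bl a b X : ℚ) : ℂ)) := by
  have h1 : ((X 1 0 : ℚ) : ℂ) = ((X 0 1 : ℚ) : ℂ) := by rw [hX.apply 0 1]
  have h2 : ((X 2 0 : ℚ) : ℂ) = ((X 0 2 : ℚ) : ℂ) := by rw [hX.apply 0 2]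
  have h3 : ((X 2 1 : ℚ) : ℂ) = ((X 1 2 : ℚ) : ℂ) := by rw [hX.apply 1 2]
  unfold wq qv bl cv
  simp only [Fin.sum_univ_three, hp]
  simp only [crs, Matrix.cons_val_zero, Matrix.cons_val_one, Matrix.cons_val_two, Matrix.head_cons,
    Matrix.tail_cons, Matrix.cons_val]
  push_cast
  simp only [h1, h2, h3]
  ring

lemma exists_c {a b g : Fin 3 → ℚ} (h : LinearIndependent ℚ ![g, a, b]) {p : Fin 3 → ℂ}
    (ha : cv a p = 0) (hb : cv b p = 0) : ∃ c : ℂ, ∀ j, p j = c * (crs a b j : ℂ) := by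
  have hδ := dt3_ne h
  have hne : ∃ k, crs a b k ≠ 0 := by
    by_contra hcon
    push Not at hcon
    apply hδ
    simp [dt3, hcon]
  obtain ⟨k, hk⟩ := hne
  have hk' : ((crs a b k : ℚ) : ℂ) ≠ 0 := by exact_mod_cast hk
  have e01 : p 0 * (crs a b 1 : ℂ) = p 1 * (crs a b 0 : ℂ) := by
    have h1 : p 0 * (crs a b 1 : ℂ) - p 1 * (crs a b 0 : ℂ) =
        cv b p * (a 2 : ℂ) - cv a p * (b 2 : ℂ) := by
      simp [crs, cv]
      ring
    rw [ha, hb] at h1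
    linear_combination h1
  have e02 : p 0 * (crs a b 2 : ℂ) = p 2 * (crs a b 0 : ℂ) := by
    have h1 : p 0 * (crs a b 2 : ℂ) - p 2 * (crs a b 0 : ℂ) =
        -(cv b p * (a 1 : ℂ)) + cv a p * (b 1 : ℂ) := by
      simp [crs, cv]
      ring
    rw [ha, hb] at h1
    linear_combination h1
  have e12 : p 1 * (crs a b 2 : ℂ) = p 2 * (crs a b 1 : ℂ) := by
    have h1 : p 1 * (crs a b 2 : ℂ) - p 2 * (crs a b 1 : ℂ) =
        cv b p * (a 0 : ℂ) - cv a p * (b 0 : ℂ) := by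
      simp [crs, cv]
      ring
    rw [ha, hb] at h1
    linear_combination h1
  refine ⟨p k / (crs a b k : ℂ), fun j => ?_⟩
  rw [div_mul_eq_mul_div, eq_div_iff hk']
  fin_cases k <;> fin_cases j <;>
    simp only [Fin.zero_eta, Fin.mk_one, Fin.reduceFinMk] at * <;>
    first
      | rfl
      | linear_combination e01
      | linear_combination -e01
      | linear_combination e02
      | linear_combination -e02
      | linear_combination e12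
      | linear_combination -e12

lemma qv_comb {X : Matrix (Fin 3) (Fin 3) ℚ} (hX : X.IsSymm) (a b g : Fin 3 → ℚ) (x y z : ℚ) :
    qv (fun k => x * a k + y * b k + z * g k) X =
      x ^ 2 * qv a X + y ^ 2 * qv b X + z ^ 2 * qv g X + 2 * x * y * bl a b X +
        2 * x * z * bl a g X + 2 * y * z * bl b g X := by
  have h1 : X 1 0 = X 0 1 := hX.apply 0 1
  have h2 : X 2 0 = X 0 2 := hX.apply 0 2
  have h3 : X 2 1 = X 1 2 := hX.apply 1 2
  unfold qv bl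
  simp only [Fin.sum_univ_three, h1, h2, h3]
  ring

/-- the second factor -/
def rr (a b g : Fin 3 → ℚ) (X : Matrix (Fin 3) (Fin 3) ℚ) : Fin 3 → ℚ := fun k =>
  qv g X * crs a b k + 2 * bl a g X * crs b g k + 2 * bl b g X * crs g a k

lemma qv_fac {X : Matrix (Fin 3) (Fin 3) ℚ} (hX : X.IsSymm) (a b g : Fin 3 → ℚ)
    (ha : qv a X = 0) (hb : qv b X = 0) (hab : bl a b X = 0) (h : Fin 3 → ℚ) :
    dt3 g (crs a b) ^ 2 * qv h X = dt3 h (crs a b) * dt3 h (rr a b g X) := by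
  have e1 : (fun k => dt3 g (crs a b) * h k) =
      (fun k => dt3 h (crs b g) * a k + dt3 h (crs g a) * b k + dt3 h (crs a b) * g k) := by
    funext k
    fin_cases k <;> simp [dt3, crs] <;> ring
  have e2 : qv (fun k => dt3 g (crs a b) * h k) X = dt3 g (crs a b) ^ 2 * qv h X := by
    unfold qv
    simp only [Fin.sum_univ_three]
    ring
  rw [← e2, e1, qv_comb hX, ha, hb, hab]
  have e3 : dt3 h (rr a b g X) = qv g X * dt3 h (crs a b) + 2 * bl a g X * dt3 h (crs b g) +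
      2 * bl b g X * dt3 h (crs g a) := by
    unfold rr dt3
    ring
  rw [e3]
  ring

end Pool.Agent.Y734.I.SIZE
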