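import Pool.Agent.Y734.I.SIZE.Alg

/-!
# Project Y734/I, job SIZE: the smallest and the second exponent
-/

set_option autoImplicit false

namespace Pool.Agent.Y734.I.SIZE

open Pool.Agent.Y734.I

variable {q : ℕ} {H : Fin q → Fin 3 → ℚ} {κ : Fin q → ℚ} {α : Fin q → ℤ}
  {M : ℤ → Matrix (Fin 3) (Fin 3) ℚ}

/-- the contradiction -/
lemma core (F : Fm H κ α M) (i2 : Fin q) (p r : Fin 3 → ℂ) (hp : p ≠ 0)
    (hw : wq p r (M (α i2)) = 0) (a b : Fin q) (hab : a ≠ b) (hap : cv (H a) p = 0)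
    (hbp : cv (H b) p = 0) (har : cv (H a) r ≠ 0) (hbr : cv (H b) r ≠ 0)
    (ha2 : α a ≠ α i2) (hb2 : α b ≠ α i2) (huniq : ∀ i, α i = α i2 → i = i2) : False := by
  classical
  set X := M (α i2) with hX
  have hXs : X.IsSymm := F.symm _
  have hq := F.hq
  -- three further lines
  have hcard : 2 < (Finset.univ \ ({a, b, i2} : Finset (Fin q))).card := by
    have h1 : ({a, b, i2} : Finset (Fin q)).card ≤ 3 := Finset.card_le_three
    have h2 := Finset.le_card_sdiff ({a, b, i2} : Finset (Fin q)) Finset.univ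
    rw [Finset.card_univ, Fintype.card_fin] at h2
    omega
  rw [Finset.two_lt_card_iff] at hcard
  obtain ⟨i, j, k, hi, hj, hk, hij, hik, hjk⟩ := hcard
  have hmem : ∀ x, x ∈ Finset.univ \ ({a, b, i2} : Finset (Fin q)) → x ≠ a ∧ x ≠ b ∧ x ≠ i2 := by
    intro x hx
    rw [Finset.mem_sdiff] at hx
    simpa [not_or] using hx.2
  have hq0 : ∀ x, α x ≠ α i2 → qv (H x) X = 0 := by
    intro x hx
    rw [hX, F.val, if_neg hx]
  have hqa := hq0 a ha2
  have hqb := hq0 b hb2
  obtain ⟨hia, hib, hi2⟩ := hmem i hi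
  have hgi : LinearIndependent ℚ ![H i, H a, H b] := F.gp i a b hia hib hab
  obtain ⟨c, hc⟩ := exists_c hgi hap hbp
  have hc0 : c ≠ 0 := by
    rintro rfl
    apply hp
    funext l
    rw [hc l, zero_mul]
    rfl
  have hbl : bl (H a) (H b) X = 0 := by
    have h1 := wq_expand hXs (H a) (H b) p r c hc
    rw [hw, hqa, hqb] at h1
    have h2 : c ^ 2 * (2 * cv (H a) r * cv (H b) r * ((bl (H a) (H b) X : ℚ) : ℂ)) = 0 := by
      have h3 : (((0 : ℚ)) : ℂ) = 0 := Rat.cast_zero
      rw [h3] at h1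
      linear_combination h1
    have h4 : ((bl (H a) (H b) X : ℚ) : ℂ) = 0 := by
      rcases mul_eq_zero.1 h2 with h | h
      · exact absurd (pow_eq_zero_iff (by norm_num) |>.1 h) hc0
      · rcases mul_eq_zero.1 h with h | h
        · exact absurd h (mul_ne_zero (mul_ne_zero two_ne_zero har) hbr)
        · exact h
    exact_mod_cast h4
  set g := H i with hg
  have hδ : dt3 g (crs (H a) (H b)) ≠ 0 := dt3_ne hgi
  have hfac := fun h => qv_fac hXs (H a) (H b) g hqa hqb hbl h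
  set R := rr (H a) (H b) g X with hR
  have hzero : ∀ x, x ≠ a ∧ x ≠ b ∧ x ≠ i2 → cv (H x) (fun l => ((R l : ℚ) : ℂ)) = 0 := by
    rintro x ⟨hxa, hxb, hx2⟩
    have h1 := hfac (H x)
    rw [hq0 x (fun h => hx2 (huniq x h)), mul_zero] at h1
    have h2 : dt3 (H x) (crs (H a) (H b)) ≠ 0 := dt3_ne (F.gp x a b hxa hxb hab)
    have h3 : dt3 (H x) R = 0 := (mul_eq_zero.1 h1.symm).resolve_left h2
    have h4 : cv (H x) (fun l => ((R l : ℚ) : ℂ)) = ((dt3 (H x) R : ℚ) : ℂ) := by
      unfold cv dt3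
      push_cast
      ring
    rw [h4, h3, Rat.cast_zero]
  have hRz : (fun l => ((R l : ℚ) : ℂ)) = 0 :=
    cv_zero (F.gp i j k hij hik hjk) (hzero i (hmem i hi)) (hzero j (hmem j hj))
      (hzero k (hmem k hk))
  have hRz' : R = 0 := by
    funext l
    have := congrFun hRz l
    simp only [Pi.zero_apply] at this
    exact_mod_cast this
  have h5 := hfac (H i2)
  rw [hRz'] at h5
  have h6 : dt3 (H i2) (0 : Fin 3 → ℚ) = 0 := by simp [dt3]
  rw [h6, mul_zero, hX, F.val, if_pos rfl] at h5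
  exact (mul_ne_zero (pow_ne_zero 2 hδ) (F.κ0 i2)) h5

lemma sum_pair' {W : Finset ℤ} {w1 w2 : ℤ} (h1 : w1 ∈ W) (h2 : w2 ∈ W) (h12 : w1 ≠ w2)
    (g : ℤ → ℚ) (hg : ∀ a ∈ W, a ≠ w1 → a ≠ w2 → g a = 0) : ∑ a ∈ W, g a = g w1 + g w2 := by
  rw [← Finset.sum_pair h12]
  symm
  apply Finset.sum_subset
  · intro x hx
    rw [Finset.mem_insert, Finset.mem_singleton] at hx
    rcases hx with rfl | rfl
    · exact h1
    · exact h2
  · intro x hx hx'
    rw [Finset.mem_insert, Finset.mem_singleton, not_or] at hx'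
    exact hg x hx hx'.1 hx'.2

lemma triple {W : Finset ℤ} {w1 w2 : ℤ} (h1 : w1 ∈ W) (h2 : w2 ∈ W) (h12 : w1 ≠ w2)
    (g : ℤ → ℤ → ℤ → ℚ) (hg : ∀ a ∈ W, ∀ b ∈ W, ∀ c ∈ W,
      ((a ≠ w1 ∧ a ≠ w2) ∨ (b ≠ w1 ∧ b ≠ w2) ∨ (c ≠ w1 ∧ c ≠ w2)) → g a b c = 0) :
    ∑ a ∈ W, ∑ b ∈ W, ∑ c ∈ W, g a b c =
      (g w1 w1 w1 + g w1 w1 w2 + (g w1 w2 w1 + g w1 w2 w2)) +
        (g w2 w1 w1 + g w2 w1 w2 + (g w2 w2 w1 + g w2 w2 w2)) := by
  have s1 : ∀ a ∈ W, ∀ b ∈ W, ∑ c ∈ W, g a b c = g a b w1 + g a b w2 := by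
    intro a ha b hb
    exact sum_pair' h1 h2 h12 (fun c => g a b c)
      (fun c hc e1 e2 => hg a ha b hb c hc (Or.inr (Or.inr ⟨e1, e2⟩)))
  have s2 : ∀ a ∈ W, ∑ b ∈ W, ∑ c ∈ W, g a b c =
      g a w1 w1 + g a w1 w2 + (g a w2 w1 + g a w2 w2) := by
    intro a ha
    rw [sum_pair' h1 h2 h12 (fun b => ∑ c ∈ W, g a b c)
      (fun b hb e1 e2 => Finset.sum_eq_zero
        (fun c hc => hg a ha b hb c hc (Or.inr (Or.inl ⟨e1, e2⟩)))), s1 a ha w1 h1, s1 a ha w2 h2]
  rw [sum_pair' h1 h2 h12 (fun a => ∑ b ∈ W, ∑ c ∈ W, g a b c)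
    (fun a ha e1 e2 => Finset.sum_eq_zero (fun b hb => Finset.sum_eq_zero
      (fun c hc => hg a ha b hb c hc (Or.inl ⟨e1, e2⟩)))), s2 w1 h1, s2 w2 h2]

/-- the smallest and the second exponent -/
lemma bottom (hfac : FacStmt) (hdet : DetStmt) (F : Fm H κ α M) (i1 i2 : Fin q)
    (hmin : ∀ i, α i1 ≤ α i) (h12 : α i1 < α i2) (hsec : ∀ i, α i1 < α i → α i2 ≤ α i) :
    (Finset.univ.filter (fun i => α i ≠ α i1)).card ≤ 4 ∧
      ((Finset.univ.filter (fun i => α i ≠ α i1)).card = 4 →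
        2 ≤ (Finset.univ.filter (fun i => α i = α i2)).card) := by
  classical
  set W := Finset.univ.image α with hW
  set w1 := α i1 with hw1
  set w2 := α i2 with hw2
  have hm1 : w1 ∈ W := Finset.mem_image_of_mem α (Finset.mem_univ i1)
  have hm2 : w2 ∈ W := Finset.mem_image_of_mem α (Finset.mem_univ i2)
  have hWge : ∀ w ∈ W, w1 ≤ w := by
    intro w hw
    obtain ⟨i, _, rfl⟩ := Finset.mem_image.1 hw
    exact hmin i
  have hWge2 : ∀ w ∈ W, w ≠ w1 → w2 ≤ w := by
    intro w hw hne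
    obtain ⟨i, _, rfl⟩ := Finset.mem_image.1 hw
    exact hsec i (lt_of_le_of_ne (hmin i) (Ne.symm hne))
  have hD := hdet W M F.det
  -- the determinant of the bottom matrix
  have hdetA : D3 (M w1) (M w1) (M w1) = 0 := by
    have h := hD (w1 + w1 + w1)
    rw [Finset.sum_eq_single w1, Finset.sum_eq_single w1, Finset.sum_eq_single w1, if_pos rfl] at h
    · exact h
    · intro c hc hne
      rw [if_neg]
      intro he
      exact hne (by omega)
    · intro hn; exact absurd hm1 hn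
    · intro b hb hne
      apply Finset.sum_eq_zero
      intro c hc
      rw [if_neg]
      have := hWge b hb
      have := hWge c hc
      omega
    · intro hn; exact absurd hm1 hn
    · intro a ha hne
      apply Finset.sum_eq_zero
      intro b hb
      apply Finset.sum_eq_zero
      intro c hc
      rw [if_neg]
      have := hWge a ha
      have := hWge b hb
      have := hWge c hc
      omega
    · intro hn; exact absurd hm1 hn
  have hdetA' : ((M w1).map (fun x : ℚ => (x : ℂ))).det = 0 := by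
    have h1 : (M w1).det = 0 := by
      rw [← hdetA]
      unfold D3
      congr 1
      ext j k
      fin_cases j <;> rfl
    have h2 := RingHom.map_det (algebraMap ℚ ℂ) (M w1)
    rw [h1, map_zero] at h2
    exact h2.symm
  have hsymA : ((M w1).map (fun x : ℚ => (x : ℂ))).IsSymm := (F.symm w1).map _
  obtain ⟨p, r, hpr⟩ := hfac _ hsymA hdetA'
  have hpr' : ∀ j k, ((M w1 j k : ℚ) : ℂ) = p j * r k + r j * p k := hpr
  have hκ := F.val w1 i1
  rw [if_pos rfl] at hκ
  have hne : 2 * cv (H i1) p * cv (H i1) r ≠ 0 := by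
    rw [← qv_sym hpr', hκ]
    exact_mod_cast F.κ0 i1
  have hp : p ≠ 0 := by
    rintro rfl
    apply hne
    simp [cv]
  have hr : r ≠ 0 := by
    rintro rfl
    apply hne
    simp [cv]
  have hor : ∀ i, α i ≠ w1 → cv (H i) p = 0 ∨ cv (H i) r = 0 := by
    intro i hi
    have h1 := qv_sym hpr' (H i)
    rw [F.val, if_neg hi, Rat.cast_zero] at h1
    rcases mul_eq_zero.1 h1.symm with h | h
    · left
      exact (mul_eq_zero.1 h).resolve_left two_ne_zero
    · right
      exact h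
  set s := Finset.univ.filter (fun i => α i ≠ w1) with hs
  set P := s.filter (fun i => cv (H i) p = 0) with hP
  set Q := s.filter (fun i => cv (H i) r = 0) with hQ
  have hPc : P.card ≤ 2 := card_le_two F.gp hp P (fun i hi => (Finset.mem_filter.1 hi).2)
  have hQc : Q.card ≤ 2 := card_le_two F.gp hr Q (fun i hi => (Finset.mem_filter.1 hi).2)
  have hsub : s ⊆ P ∪ Q := by
    intro i hi
    rw [Finset.mem_union]
    rcases hor i (Finset.mem_filter.1 hi).2 with h | h
    · left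
      exact Finset.mem_filter.2 ⟨hi, h⟩
    · right
      exact Finset.mem_filter.2 ⟨hi, h⟩
  have hc1 := Finset.card_le_card hsub
  have hc2 := Finset.card_union_add_card_inter P Q
  refine ⟨by omega, ?_⟩
  intro hs4
  by_contra hcon
  have hP2 : P.card = 2 := by omega
  have hQ2 : Q.card = 2 := by omega
  have hPQ : P ∩ Q = ∅ := by
    rw [← Finset.card_eq_zero]
    omega
  have huniq : ∀ i, α i = α i2 → i = i2 := by
    intro i hi
    have h1 : (Finset.univ.filter (fun i => α i = w2)).card ≤ 1 := by omega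
    exact Finset.card_le_one.1 h1 i (Finset.mem_filter.2 ⟨Finset.mem_univ _, hi⟩) i2
      (Finset.mem_filter.2 ⟨Finset.mem_univ _, rfl⟩)
  -- the second coefficient
  have hne12 : w1 ≠ w2 := h12.ne
  have hwq : wq p r (M w2) = 0 := by
    have h := hD (w1 + w1 + w2)
    have hz : ∀ a ∈ W, a ≠ w1 → a ≠ w2 → w2 < a := by
      intro a ha ha1 ha2
      exact lt_of_le_of_ne (hWge2 a ha ha1) (Ne.symm ha2)
    rw [triple hm1 hm2 hne12 (fun a b c => if a + b + c = w1 + w1 + w2 then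
        D3 (M a) (M b) (M c) else 0) ?_] at h
    · have k1 : ¬ (w1 + w1 + w1 = w1 + w1 + w2) := by omega
      have k2 : w1 + w2 + w1 = w1 + w1 + w2 := by omega
      have k3 : ¬ (w1 + w2 + w2 = w1 + w1 + w2) := by omega
      have k4 : w2 + w1 + w1 = w1 + w1 + w2 := by omega
      have k5 : ¬ (w2 + w1 + w2 = w1 + w1 + w2) := by omega
      have k6 : ¬ (w2 + w2 + w1 = w1 + w1 + w2) := by omega
      have k7 : ¬ (w2 + w2 + w2 = w1 + w1 + w2) := by omega
      simp only [if_neg k1, if_pos k2, if_neg k3, if_pos k4, if_neg k5, if_neg k6, if_neg k7,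
        if_true] at h
      have h2 := d3_sum (X := M w2) (F.symm w2) hpr'
      have h3 : D3 (M w1) (M w1) (M w2) + D3 (M w1) (M w2) (M w1) + D3 (M w2) (M w1) (M w1) =
          0 := by linear_combination h
      rw [h3, Rat.cast_zero] at h2
      linear_combination h2
    · intro a ha b hb c hc hor3
      rw [if_neg]
      have g1 := hWge a ha
      have g2 := hWge b hb
      have g3 := hWge c hc
      rcases hor3 with ⟨e1, e2⟩ | ⟨e1, e2⟩ | ⟨e1, e2⟩
      · have := hz a ha e1 e2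
        omega
      · have := hz b hb e1 e2
        omega
      · have := hz c hc e1 e2
        omega
  have hex : ∀ x, x ∈ P → x ∉ Q := by
    intro x hx hx'
    have : x ∈ P ∩ Q := Finset.mem_inter.2 ⟨hx, hx'⟩
    rw [hPQ] at this
    exact absurd this (Finset.notMem_empty x)
  by_cases hi2 : i2 ∈ P
  · -- use `Q`
    obtain ⟨a, b, hab, hQab⟩ := Finset.card_eq_two.1 hQ2
    have ha : a ∈ Q := by rw [hQab]; simp
    have hb : b ∈ Q := by rw [hQab]; simp
    have hi2Q : i2 ∉ Q := hex i2 hi2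
    have hx : ∀ x ∈ Q, cv (H x) r = 0 ∧ cv (H x) p ≠ 0 ∧ α x ≠ α i2 := by
      intro x hx
      have h1 := Finset.mem_filter.1 hx
      refine ⟨h1.2, fun h => hex x (Finset.mem_filter.2 ⟨h1.1, h⟩) hx, fun h => ?_⟩
      rw [huniq x h] at hx
      exact hi2Q hx
    exact core F i2 r p hr (by rw [wq_swap]; exact hwq) a b hab (hx a ha).1 (hx b hb).1
      (hx a ha).2.1 (hx b hb).2.1 (hx a ha).2.2 (hx b hb).2.2 huniq
  · obtain ⟨a, b, hab, hPab⟩ := Finset.card_eq_two.1 hP2
    have ha : a ∈ P := by rw [hPab]; simp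
    have hb : b ∈ P := by rw [hPab]; simp
    have hx : ∀ x ∈ P, cv (H x) p = 0 ∧ cv (H x) r ≠ 0 ∧ α x ≠ α i2 := by
      intro x hx
      have h1 := Finset.mem_filter.1 hx
      refine ⟨h1.2, fun h => hex x hx (Finset.mem_filter.2 ⟨h1.1, h⟩), fun h => ?_⟩
      rw [huniq x h] at hx
      exact hi2 hx
    exact core F i2 p r hp hwq a b hab (hx a ha).1 (hx b hb).1
      (hx a ha).2.1 (hx b hb).2.1 (hx a ha).2.2 (hx b hb).2.2 huniq

/-- reversal of the exponents -/
lemma fm_neg (F : Fm H κ α M) : Fm H κ (fun i => -α i) (fun w => M (-w)) where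
  hq := F.hq
  gp := F.gp
  κ0 := F.κ0
  symm := fun w => F.symm (-w)
  val := by
    intro w i
    rw [F.val]
    by_cases h : α i = -w
    · rw [if_pos h, if_pos (by omega)]
    · rw [if_neg h, if_neg (by omega)]
  det := by
    classical
    intro z hz
    have h := F.det z⁻¹ (inv_ne_zero hz)
    have h1 : Finset.univ.image (fun i => -α i) = (Finset.univ.image α).image (fun w => -w) := by
      rw [Finset.image_image]
      rfl
    rw [h1, Finset.sum_image (fun x _ y _ hxy => neg_injective hxy)]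
    have h2 : ∑ w ∈ Finset.univ.image α, z ^ (-w) • M (- -w) =
        ∑ w ∈ Finset.univ.image α, z⁻¹ ^ w • M w := by
      apply Finset.sum_congr rfl
      intro w _
      rw [neg_neg, inv_zpow', ]
    rw [h2]
    exact h

end Pool.Agent.Y734.I.SIZE
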