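import Pool.Agent.Y734.I.SIZE.Core

/-!
# Project Y734/I, job SIZE: counting
-/

set_option autoImplicit false

namespace Pool.Agent.Y734.I.SIZE

open Pool.Agent.Y734.I

theorem size (hfac : FacStmt) (hdet : DetStmt) : SizeStmt := by
  classical
  intro q H κ α M F hex
  obtain ⟨i0, j0, k0, hij, hjk⟩ := hex
  haveI : Nonempty (Fin q) := ⟨i0⟩
  obtain ⟨i1, hi1⟩ := Finite.exists_min α
  obtain ⟨it, hit⟩ := Finite.exists_max α
  have h1j : α i1 < α j0 := lt_of_le_of_lt (hi1 i0) hij
  have hjt : α j0 < α it := lt_of_lt_of_le hjk (hit k0)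
  -- the second exponent
  have hne2 : (Finset.univ.filter (fun i => α i1 < α i)).Nonempty :=
    ⟨j0, Finset.mem_filter.2 ⟨Finset.mem_univ _, h1j⟩⟩
  obtain ⟨i2, hi2, hi2m⟩ := Finset.exists_min_image _ α hne2
  have hi2' : α i1 < α i2 := (Finset.mem_filter.1 hi2).2
  have hsec : ∀ i, α i1 < α i → α i2 ≤ α i := fun i hi =>
    hi2m i (Finset.mem_filter.2 ⟨Finset.mem_univ _, hi⟩)
  have hneu : (Finset.univ.filter (fun i => α i < α it)).Nonempty :=
    ⟨j0, Finset.mem_filter.2 ⟨Finset.mem_univ _, hjt⟩⟩
  obtain ⟨iu, hiu, hium⟩ := Finset.exists_max_image _ α hneu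
  have hiu' : α iu < α it := (Finset.mem_filter.1 hiu).2
  have hsecu : ∀ i, α i < α it → α i ≤ α iu := fun i hi =>
    hium i (Finset.mem_filter.2 ⟨Finset.mem_univ _, hi⟩)
  obtain ⟨b1, b2⟩ := bottom hfac hdet F i1 i2 hi1 hi2' hsec
  obtain ⟨t1, t2⟩ := bottom hfac hdet (fm_neg F) it iu (fun i => neg_le_neg (hit i))
    (neg_lt_neg hiu') (fun i hi => neg_le_neg (hsecu i (neg_lt_neg_iff.1 hi)))
  have ht1 : (Finset.univ.filter (fun i => -α i ≠ -α it)) =
      Finset.univ.filter (fun i => α i ≠ α it) := by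
    apply Finset.filter_congr
    intro i _
    rw [Ne, neg_inj]
  have ht2 : (Finset.univ.filter (fun i => -α i = -α iu)) =
      Finset.univ.filter (fun i => α i = α iu) := by
    apply Finset.filter_congr
    intro i _
    rw [neg_inj]
  rw [ht1] at t1 t2
  rw [ht2] at t2
  -- the classes
  set A := Finset.univ.filter (fun i => α i = α i1) with hA
  set B := Finset.univ.filter (fun i => α i = α it) with hB
  set C := Finset.univ.filter (fun i => α i ≠ α i1 ∧ α i ≠ α it) with hC
  have hA' : A.card + (Finset.univ.filter (fun i => α i ≠ α i1)).card = q := by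
    rw [hA, Finset.card_filter_add_card_filter_not, Finset.card_univ, Fintype.card_fin]
  have hB' : B.card + (Finset.univ.filter (fun i => α i ≠ α it)).card = q := by
    rw [hB, Finset.card_filter_add_card_filter_not, Finset.card_univ, Fintype.card_fin]
  have hBC : B.card + C.card = (Finset.univ.filter (fun i => α i ≠ α i1)).card := by
    rw [← Finset.card_union_of_disjoint]
    · congr 1
      ext i
      simp only [hB, hC, Finset.mem_union, Finset.mem_filter, Finset.mem_univ, true_and]
      constructor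
      · rintro (h | h)
        · rw [h]
          omega
        · exact h.1
      · intro h
        by_cases h2 : α i = α it
        · left; exact h2
        · right; exact ⟨h, h2⟩
    · rw [Finset.disjoint_left]
      intro i hi hi'
      exact (Finset.mem_filter.1 hi').2.2 (Finset.mem_filter.1 hi).2
  have hj0C : j0 ∈ C := Finset.mem_filter.2 ⟨Finset.mem_univ _, by omega, by omega⟩
  have hC1 : 1 ≤ C.card := Finset.card_pos.2 ⟨j0, hj0C⟩
  set E2 := Finset.univ.filter (fun i => α i = α i2) with hE2
  set Eu := Finset.univ.filter (fun i => α i = α iu) with hEu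
  have h2t : α i2 < α it := lt_of_le_of_lt (hsec j0 h1j) hjt
  have h1u : α i1 < α iu := lt_of_lt_of_le h1j (hsecu j0 hjt)
  have hE2C : E2 ⊆ C := by
    intro i hi
    have h1 := (Finset.mem_filter.1 hi).2
    exact Finset.mem_filter.2 ⟨Finset.mem_univ _, by omega, by omega⟩
  have hEuC : Eu ⊆ C := by
    intro i hi
    have h1 := (Finset.mem_filter.1 hi).2
    exact Finset.mem_filter.2 ⟨Finset.mem_univ _, by omega, by omega⟩
  have hE2c := Finset.card_le_card hE2C
  have hEuc := Finset.card_le_card hEuC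
  have hq := F.hq
  have hq6 : q = 6 := by
    by_contra hne
    have e1 : q = 7 := by omega
    have e2 : (Finset.univ.filter (fun i => α i ≠ α i1)).card = 4 := by omega
    have e3 := b2 e2
    omega
  have hcards : A.card = 2 ∧ B.card = 2 ∧ C.card = 2 ∧ E2.card = 2 := by
    by_cases hb4 : (Finset.univ.filter (fun i => α i ≠ α i1)).card = 4
    · have e3 := b2 hb4
      refine ⟨by omega, by omega, by omega, by omega⟩
    · exfalso
      by_cases ht4 : (Finset.univ.filter (fun i => α i ≠ α it)).card = 4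
      · have e4 := t2 ht4
        omega
      · omega
  obtain ⟨cA, cB, cC, cE⟩ := hcards
  obtain ⟨x0, x1, h01, eA⟩ := Finset.card_eq_two.1 cA
  obtain ⟨x2, x3, h23, eE⟩ := Finset.card_eq_two.1 cE
  obtain ⟨x4, x5, h45, eB⟩ := Finset.card_eq_two.1 cB
  have m0 : α x0 = α i1 := (Finset.mem_filter.1 (show x0 ∈ A by rw [eA]; simp)).2
  have m1 : α x1 = α i1 := (Finset.mem_filter.1 (show x1 ∈ A by rw [eA]; simp)).2
  have m2 : α x2 = α i2 := (Finset.mem_filter.1 (show x2 ∈ E2 by rw [eE]; simp)).2
  have m3 : α x3 = α i2 := (Finset.mem_filter.1 (show x3 ∈ E2 by rw [eE]; simp)).2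
  have m4 : α x4 = α it := (Finset.mem_filter.1 (show x4 ∈ B by rw [eB]; simp)).2
  have m5 : α x5 = α it := (Finset.mem_filter.1 (show x5 ∈ B by rw [eB]; simp)).2
  refine ⟨hq6, ![x0, x1, x2, x3, x4, x5], ?_, ?_, ?_, ?_, ?_, ?_⟩
  · have n02 : x0 ≠ x2 := fun h => by rw [h] at m0; omega
    have n03 : x0 ≠ x3 := fun h => by rw [h] at m0; omega
    have n04 : x0 ≠ x4 := fun h => by rw [h] at m0; omega
    have n05 : x0 ≠ x5 := fun h => by rw [h] at m0; omega
    have n12 : x1 ≠ x2 := fun h => by rw [h] at m1; omega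
    have n13 : x1 ≠ x3 := fun h => by rw [h] at m1; omega
    have n14 : x1 ≠ x4 := fun h => by rw [h] at m1; omega
    have n15 : x1 ≠ x5 := fun h => by rw [h] at m1; omega
    have n24 : x2 ≠ x4 := fun h => by rw [h] at m2; omega
    have n25 : x2 ≠ x5 := fun h => by rw [h] at m2; omega
    have n34 : x3 ≠ x4 := fun h => by rw [h] at m3; omega
    have n35 : x3 ≠ x5 := fun h => by rw [h] at m3; omega
    intro i j h
    fin_cases i <;> fin_cases j <;>
      simp only [Fin.zero_eta, Fin.mk_one, Fin.reduceFinMk, Matrix.cons_val] at h ⊢ <;>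
      first
        | rfl
        | exact absurd h (by assumption)
        | exact absurd h.symm (by assumption)
  · show α x0 = α x1
    omega
  · show α x1 < α x2
    omega
  · show α x2 = α x3
    omega
  · show α x3 < α x4
    omega
  · show α x4 = α x5
    omega

end Pool.Agent.Y734.I.SIZE
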